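import Mathlib
import Pool.Agent.Helper131.FreeDef
import Pool.Agent.Helper131.Comp
import Pool.Agent.H42.PG.Bridge2

set_option autoImplicit false

namespace Pool.Agent.Results.MP_efc42c_co.LargeAlphabetsBelowTwo

open Pool.Agent.Helper131 (Free)

/-- Let `α` be rational with `1 < α < 2` and let the alphabet have more than
`1 / (α - 1) + 13 / √(α - 1) + 31` letters. Then a word `u` is right (left) extendable exactly
when some word of length `20 * |u| + 1` can be put after (before) it, and right extendability and
left extendability are both decidable. -/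
theorem result (k : ℕ) (α : ℚ) (h1 : 1 < α) (h2 : α < 2)
    (hk : 1 / ((α : ℝ) - 1) + 13 * Real.sqrt (1 / ((α : ℝ) - 1)) + 31 < k) :
    (∀ u : List (Fin k), {x : List (Fin k) | Free α (u ++ x)}.Infinite ↔
      ∃ x : List (Fin k), x.length = 20 * u.length + 1 ∧ Free α (u ++ x)) ∧
    (∀ u : List (Fin k), {x : List (Fin k) | Free α (x ++ u)}.Infinite ↔
      ∃ x : List (Fin k), x.length = 20 * u.length + 1 ∧ Free α (x ++ u)) ∧
    (ComputablePred fun u : List (Fin k) => {x : List (Fin k) | Free α (u ++ x)}.Infinite) ∧
    (ComputablePred fun u : List (Fin k) => {x : List (Fin k) | Free α (x ++ u)}.Infinite) := by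
  refine ⟨fun u => ?_, fun u => ?_, H42PG.computable_right2 h1 h2.le hk,
    H42PG.computable_left2 h1 h2.le hk⟩
  · rw [H42PG.right_iff2 h1 h2.le hk]
    simp only [Pool.Agent.Helper131.Comp.mem_words]
  · rw [H42PG.left_iff2 h1 h2.le hk]
    simp only [Pool.Agent.Helper131.Comp.mem_words]

end Pool.Agent.Results.MP_efc42c_co.LargeAlphabetsBelowTwo
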