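import Mathlib
import Pool.Agent.Helper131.FreeDef
import Pool.Agent.Helper131.Comp
import Pool.Agent.H42.PG.Alt

set_option autoImplicit false

namespace Pool.Agent.Results.MP_efc42c_co.TwoSidedLargeAlphabets

open Pool.Agent.Helper131 (Free)

/-- Let `α` be rational with `1 < α ≤ 2` and let the alphabet have more than
`1 / (α - 1) + 19 / √(α - 1) + 71` letters. Then a word `u` is two-sided extendable exactly when
some words `v`, `y` of length `20 * |u| + 1` make `v u y` free of powers of exponent at least `α`,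
and two-sided extendability is decidable. -/
theorem result (k : ℕ) (α : ℚ) (h1 : 1 < α) (h2 : α ≤ 2)
    (hk : 1 / ((α : ℝ) - 1) + 19 * Real.sqrt (1 / ((α : ℝ) - 1)) + 71 < k) :
    (∀ u : List (Fin k),
      {z : List (Fin k) | (∃ v y : List (Fin k), z = v ++ u ++ y ∧ v.length = y.length) ∧
        Free α z}.Infinite ↔
      ∃ v y : List (Fin k), v.length = 20 * u.length + 1 ∧ y.length = 20 * u.length + 1 ∧
        Free α (v ++ u ++ y)) ∧
    ComputablePred fun u : List (Fin k) =>
      {z : List (Fin k) | (∃ v y : List (Fin k), z = v ++ u ++ y ∧ v.length = y.length) ∧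
        Free α z}.Infinite := by
  refine ⟨fun u => ?_, H42PG.computable_two3 h1 h2 hk⟩
  rw [H42PG.two_iff3 h1 h2 hk]
  simp only [Pool.Agent.Helper131.Comp.mem_words]
  constructor
  · rintro ⟨v, hv, y, hy, hF⟩
    exact ⟨v, y, hv, hy, hF⟩
  · rintro ⟨v, y, hv, hy, hF⟩
    exact ⟨v, hv, y, hy, hF⟩

end Pool.Agent.Results.MP_efc42c_co.TwoSidedLargeAlphabets
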